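import Pool.Agent.H24.Anti2

namespace Pool.Agent.Results.MP_c99d13_lc.Hard

open Pool.Agent.H38.NP Pool.Agent.H24.Anti

theorem result : NPHard (lang fun p : ℕ × List (ℕ × ℕ) =>
    ∃ D₁ D₂ : Fin p.1 → Fin p.1 → Prop,
      (∀ u v, D₁ u v → u ≠ v ∧ (u.1, v.1) ∈ p.2) ∧ (∀ u v, D₂ u v → u ≠ v ∧ (u.1, v.1) ∈ p.2) ∧
      (∀ u v, D₁ u v → ¬ D₂ u v) ∧ Antistrong D₁ ∧ Strong D₂) :=
  hard.npHard fun _ _ => Iff.rfl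

end Pool.Agent.Results.MP_c99d13_lc.Hard
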